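import Mathlib
import Pool.Agent.H88.GateauxDefs
import Pool.Agent.H88.GateauxLemmas

/-!
# A Lipschitz homeomorphism of a nonseparable superreflexive space, nowhere Gateaux differentiable
-/

namespace Pool.Agent.Results.MP_714461_an.NowhereGateaux

open Pool.Agent.H88.Gateaux

universe v

/-- **Q1 and Q2, answered negatively.** There are nonseparable reflexive and superreflexive
Banach spaces `X`, `Y` and a Lipschitz homeomorphism of `X` onto `Y` which is Gateaux
differentiable at no point of `X`. (The witness is `X = Y = ℓ²(ℝ)`, a Hilbert space.) -/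
theorem result : ∃ (X Y : Type) (_ : NormedAddCommGroup X) (_ : NormedSpace ℝ X)
    (_ : CompleteSpace X) (_ : NormedAddCommGroup Y) (_ : NormedSpace ℝ Y)
    (_ : CompleteSpace Y),
    (IsNonseparable X ∧ IsReflexive X ∧ IsSuperreflexive.{0, v} X) ∧
    (IsNonseparable Y ∧ IsReflexive Y ∧ IsSuperreflexive.{0, v} Y) ∧
    ∃ φ : X → Y, IsLipschitzHomeo φ ∧ ∀ x₀ : X, ¬ GateauxDifferentiableAt φ x₀ :=
  ⟨H ℝ, H ℝ, inferInstance, inferInstance, inferInstance, inferInstance, inferInstance,
    inferInstance,
    ⟨not_separable ℝ, isReflexive_of_inner _, isSuperreflexive_of_inner _⟩,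
    ⟨not_separable ℝ, isReflexive_of_inner _, isSuperreflexive_of_inner _⟩,
    phi ℝ, phi_isLipschitzHomeo ℝ, not_gateaux⟩

end Pool.Agent.Results.MP_714461_an.NowhereGateaux
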